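import Pool.Agent.Helper91.RpS

open Real MeasureTheory Set

noncomputable section

namespace Pool.Agent.Results.MP_e24612_gt.RadialMeanOneNotCovariogram

open Pool.Agent.Helper91

/-- In the plane there are a convex body `K` and a disc `D` with `R_1 K = R_1 D` whose
covariograms differ. -/
theorem result :
    ∃ K D : Set (EuclideanSpace ℝ (Fin 2)), IsBody K ∧ IsBody D ∧
      (∃ r : ℝ, D = Metric.closedBall 0 r) ∧
      (∀ u, ‖u‖ = 1 → radialMean 1 K u = radialMean 1 D u) ∧
      ∃ x, covariogram K x ≠ covariogram D x := by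
  obtain ⟨c⟩ := exists_Cst
  obtain ⟨η0, P⟩ := exists_Par c
  obtain ⟨g, hg, hT⟩ := exists_fix c P
  set Γ : Crv := Gam P hg with hΓ
  have hρ : Γ.ρ = rhoG η0 g := rfl
  have hV := Γ.vol_pos
  set V := volume.real Γ.bodyE with hVdef
  have hr : 0 < π / V := by positivity
  set D : Crv := Crv.disc (π / V) hr with hD
  refine ⟨Γ.bodyE, D.bodyE, Γ.isBody, D.isBody, ⟨π / V, Crv.disc_ball hr⟩, ?_, ?_⟩
  · intro u hu
    obtain ⟨α, h0, h1⟩ := exists_angle u hu
    rw [Γ.radialMean_one α u h0 h1, D.radialMean_one α u h0 h1]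
    have hJ1 := Crv.J_const (Γ := Γ) (η := 4 * η0) hg.good c (by linarith [P.l1])
      (fun θ => fix_eq hT hg θ) α
    have hJ2 := Crv.J_const (Γ := Crv.disc 1 one_pos) (η := 0) (good_one le_rfl) c
      (by linarith [c.r0p]) (fun θ => by
        have e1 : (Crv.disc 1 one_pos).ρ = fun _ => 1 := rfl
        rw [e1]
        simp only [qq_one]; norm_num) α
    rw [hD, Crv.int_kk_disc hr, Crv.vol_disc hr, hJ1, hJ2, ← hVdef]
    have hpi := pi_pos
    generalize (∫ θ in 0..(2 * π), (tst α).f0 (θ + π / 2)) = I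
    field_simp
  · by_contra hc
    push Not at hc
    have hw := Crv.wd_eq Γ D hc
    have hw2 : ∀ θ, Γ.wd θ = 2 * (π / V) := fun θ => by rw [hw, hD, Crv.wd_disc hr]
    have hsum := Γ.rho_of_wd hw2
    have hgc : ∀ θ, Γ.ρ θ = π / V + η0 * cos (3 * θ) := by
      intro θ
      have h3 := hsum θ
      rw [hρ] at h3 ⊢
      have h2 : rhoG η0 g (θ + π) = 1 + g θ - η0 * cos (3 * θ) := by
        unfold rhoG
        rw [hg.per, show 3 * (θ + π) = 3 * θ + π + 2 * π by ring, cos_add_two_pi, cos_add_pi]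
        ring
      have h4 : rhoG η0 g θ = 1 + g θ + η0 * cos (3 * θ) := rfl
      rw [h2, h4] at h3
      rw [h4]
      linarith
    have hY : ∀ x, Γ.Y x = π / V * sin x + η0 * (sin x * cos x ^ 3) + 0 := by
      intro x
      have h5 : Γ.Y x = ∫ y in 0..x, Γ.ρ y * cos y := rfl
      rw [h5]
      have h6 : ∀ y, Γ.ρ y * cos y = π / V * cos y + η0 * (cos (3 * y) * cos y) := fun y => by
        rw [hgc]; ring
      simp only [h6]
      rw [intervalIntegral.integral_eq_sub_of_hasDerivAt
        (f := fun x => π / V * sin x + η0 * (sin x * cos x ^ 3))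
        (fun y _ => ((hasDerivAt_sin y).const_mul _).add ((sc3_deriv y).const_mul _))
        ((by fun_prop : Continuous fun y : ℝ =>
          π / V * cos y + η0 * (cos (3 * y) * cos y)).intervalIntegrable _ _)]
      simp
    have hvol : V = π * (π / V) ^ 2 - η0 ^ 2 * π / 16 := by
      rw [← vol_const (r := π / V) (e := η0) (k := 0)]
      conv_lhs => rw [hVdef, Γ.vol_E]
      congr 1; ext x
      rw [hgc, hY]
    have hvolD : volume.real D.bodyE = π * (π / V) ^ 2 := by
      rw [hD, Crv.vol_disc hr]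
    have h0 := hc 0
    rw [cov_zero, cov_zero, hvolD] at h0
    have hp : 0 < η0 ^ 2 * π / 16 := by
      have := P.pos
      positivity
    rw [← hVdef] at h0
    linarith

end Pool.Agent.Results.MP_e24612_gt.RadialMeanOneNotCovariogram
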